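import Pool.Agent.Run7.h630.QW.Defs

/-!
# The bilinear local gauge invariant fields of the gauge theory on `Z² x (Z/l)²`
-/

open MeasureTheory Filter Topology Matrix

namespace Run7.h630.QW

open Run7.h4.YM Run7.h630.WL Run7.h630.QF

noncomputable section

/-- the field strength at `x` in the direction of the two-form `u` (of which only `u a b`, `a < b`,
is used) -/
def curvU {N l : ℕ} (k : ℕ) (V : LinkZ l → SU N) (u : Fin 4 → Fin 4 → ℝ) (x : SiteZ l) :
    Matrix (Fin N) (Fin N) ℂ :=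
  ∑ a : Fin 4, ∑ b ∈ Finset.Ioi a, (u a b : ℂ) • curvZ k V x a b

/-- the local gauge invariant field `(β / 2) tr (F_u^* F_u)` -/
def localField {N l : ℕ} (k : ℕ) (β : ℝ) (V : LinkZ l → SU N) (u : Fin 4 → Fin 4 → ℝ)
    (x : SiteZ l) : ℝ :=
  β / 2 * (trace ((curvU k V u x)ᴴ * curvU k V u x)).re

/-- the two-point function of the components `F_u`, `F_v` of the free field of the colour `α` -/
def twoPointU (N k : ℕ) (α : Fin N × Fin N) (u v : Fin 4 → Fin 4 → ℝ) (z : Fin 4 → ℝ) : ℂ :=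
  ∑ a : Fin 4, ∑ b ∈ Finset.Ioi a, ∑ c : Fin 4, ∑ d ∈ Finset.Ioi c,
    (u a b * v c d : ℝ) * twoPoint N k α a b c d z

end

end Run7.h630.QW
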