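import Pool.Agent.Run7.h630.QW.Iface
import Pool.Agent.Run7.h630.QW.Defs2

/-!
# Stage two: all bilinear local gauge invariant fields, interface

The pieces W5a, W5b, W5, W6 for general real two-forms `u`, `v` instead of the planes `(i, j)`,
`(i', j')`. W1, W3, W4, K1, K2, K3 are used as they are.
-/

open MeasureTheory Matrix Filter Topology
open scoped Matrix.Norms.Frobenius ComplexConjugate

namespace Run7.h630.QW

open Run7.h4.YM Run7.h630.WL Run7.h630.MQ Run7.h630.QC Run7.h630.ML Run7.h630.QF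

noncomputable section

variable {N n L l : ℕ}

/-- the two-form `u` at the site `y`, in the colour `α`, with the coefficient `w` -/
def pu (α : Col N) (w : ℂ) (u : Fin 4 → Fin 4 → ℝ) (y : Site n L l) (α' : Col N) (a b : Fin 4)
    (x : Site n L l) : ℂ :=
  if α' = α ∧ x = y then w * ((if a < b then u a b else if b < a then -u b a else 0 : ℝ) : ℂ)
  else 0

/-- the two-point function of the field strength on the lattice -/
def kru (k : ℕ) (α : Col N) (u v : Fin 4 → Fin 4 → ℝ) (x y : Site n L l) : ℂ :=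
  ∑ i : Fin 4, ∑ j ∈ Finset.Ioi i, ∑ i' : Fin 4, ∑ j' ∈ Finset.Ioi i',
    (u i j * v i' j' : ℝ) * kr k α i j i' j' x y

/-- the curvature in the direction `u` -/
def Fu (k : ℕ) (q : ZMod n × ZMod L → ZMod N) (U : Link n L l → SU N) (u : Fin 4 → Fin 4 → ℝ)
    (x : Site n L l) : Mt N :=
  ∑ i : Fin 4, ∑ j ∈ Finset.Ioi i, (u i j : ℂ) • Fc k q U x i j

/-- the local field on the torus -/
def Xu (k : ℕ) (β : ℝ) (u : Fin 4 → Fin 4 → ℝ) (x : Site n L l) (q : ZMod n × ZMod L → ZMod N)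
    (U : Link n L l → SU N) : ℝ :=
  β / 2 * (trace ((Fu k q U u x)ᴴ * Fu k q U u x)).re

/-- V5a: algebra, compare `S_W5a` -/
def S_V5a : Prop := ∀ (N n L l k : ℕ) [NeZero N] [NeZero n] [NeZero L] [NeZero l],
  Nat.Coprime k N → ∀ χ : Col N → ℂ, (∀ α, ‖χ α‖ = 1) → (∀ α, χ (ng α) = χ α) →
  ∀ (u v : Fin 4 → Fin 4 → ℝ) (x y : Site n L l),
  ∑ α ∈ Cz N, ∑ w ∈ ({1, Complex.I} : Finset ℂ), ∑ α' ∈ Cz N, ∑ w' ∈ ({1, Complex.I} : Finset ℂ),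
    ct χ k (pu α w u x) (pu α' w' v y) ^ 2 = 4 * N ^ 2 * ∑ α ∈ Cz N, ‖kru k α u v x y‖ ^ 2

/-- V5b: the local field in terms of the fields, compare `S_W5b` (`Q3` with `M = Fu`) -/
def S_V5b : Prop := ∀ N : ℕ, [NeZero N] → ∃ C : ℝ, ∃ p : ℕ, 0 < C ∧ ∀ (n L l k : ℕ) [NeZero n]
  [NeZero L] [NeZero l], Nat.Coprime k N → ∀ (q : ZMod n × ZMod L → ZMod N)
  (U : Link n L l → SU N) (u : Fin 4 → Fin 4 → ℝ) (B : ℝ), (∀ i j, |u i j| ≤ B) →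
  ∀ (x : Site n L l) (β : ℝ), 1 ≤ β →
  |Xu k β u x q U -
      β / (2 * N) * ∑ α ∈ Cz N, ‖∑ i : Fin 4, ∑ j ∈ Finset.Ioi i, (u i j : ℂ) * ph2 k q α U i j x‖ ^ 2| ≤
    C * vol n L l ^ p * (1 + B) ^ 4 / Real.sqrt β * (1 + (β * Sq k q U) ^ 2)

/-- V5: the covariances of the local fields on the torus, compare `S_W5` -/
def S_V5 : Prop := ∀ (N k : ℕ) [NeZero N], Nat.Coprime k N →
  ∀ [MeasurableSpace (SU N)] [BorelSpace (SU N)] (μ : Measure (SU N)) [IsProbabilityMeasure μ]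
  [μ.IsHaarMeasure], ∃ C : ℝ, ∃ p : ℕ, 0 < C ∧ ∀ (m l R : ℕ) [NeZero m] [NeZero (2 * m)]
  [NeZero l], 2 * R + 2 ≤ 2 * m → ∀ β : ℝ, 1 ≤ β →
  ∀ (u v : Fin 4 → Fin 4 → ℝ) (B : ℝ), (∀ i j, |u i j| ≤ B) → (∀ i j, |v i j| ≤ B) →
  ∀ x y : Site (2 * m) (2 * m) l,
  ∀ A : ((ZMod (2 * m) × ZMod (2 * m) → ZMod N) → (Link (2 * m) (2 * m) l → SU N) → ℝ) → ℝ,
  (A = fun H => Sw N (2 * m) (2 * m) R (fun q => ∫ U, H q U * Real.exp (-(β * Sq k q U))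
    ∂(Measure.pi fun _ : Link (2 * m) (2 * m) l => μ))) →
  |A (fun q U => Xu k β u x q U * Xu k β v y q U) * A (fun _ _ => 1) -
      A (Xu k β u x) * A (Xu k β v y) -
      1 / 2 * ∑ α ∈ Cz N, ‖kru k α u v x y‖ ^ 2 * A (fun _ _ => 1) ^ 2| ≤
    C * vol (2 * m) (2 * m) l ^ p * (1 + B) ^ 16 * β ^ (-(1 / 4) : ℝ) * A (fun _ _ => 1) ^ 2

/-- V6: the transfer to the infinite volume, compare `S_W6` -/
def S_V6 : Prop := ∀ (N k : ℕ) [NeZero N], 2 ≤ N → Nat.Coprime k N →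
  ∀ [MeasurableSpace (SU N)] [BorelSpace (SU N)] (μ : Measure (SU N)) [IsProbabilityMeasure μ]
  [μ.IsHaarMeasure], ∃ p : ℕ, ∀ T : ℕ, ∃ l₁ : ℕ, ∀ (l : ℕ) [NeZero l], l₁ ≤ l → ∀ β : ℝ,
  (l : ℝ) ^ p ≤ β → ∀ ν : Measure (LinkZ l → SU N), IsLimit k μ β ν →
  ∃ m : ℕ, l ^ 2 ≤ m ∧ ∀ [NeZero m] [NeZero (2 * m)], ∀ u v : Fin 4 → Fin 4 → ℝ,
  (∀ i j, |u i j| ≤ T) → (∀ i j, |v i j| ≤ T) →
  ∀ x y : SiteZ l, |x.1| ≤ T * l → |x.2.1| ≤ T * l → |y.1| ≤ T * l → |y.2.1| ≤ T * l →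
  |∫ V, localField k β V u x * localField k β V v y ∂ν -
      (∫ V, localField k β V u x ∂ν) * ∫ V, localField k β V v y ∂ν -
      1 / 2 * ∑ α ∈ Cz N, ‖kru k α u v (prj m x) (prj m y)‖ ^ 2| ≤ ((l : ℝ) ^ 9)⁻¹

end

end Run7.h630.QW
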