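import Pool.Agent.Run7.h630.QW.Fin
import Pool.Agent.Run7.h630.QW.Gen

/-!
# The two-point functions of all bilinear local gauge invariant fields: assembly
-/

open MeasureTheory Matrix Filter Topology

namespace Run7.h630.QW

open Run7.h4.YM Run7.h630.WL Run7.h630.QC Run7.h630.QF

noncomputable section

variable {N l : ℕ}

/-- the sum over the planes -/
lemma sum_planes_le (f : Fin 4 → Fin 4 → Fin 4 → Fin 4 → ℂ) {C : ℝ}
    (h : ∀ a b c d, a < b → c < d → ‖f a b c d‖ ≤ C) :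
    ‖∑ a : Fin 4, ∑ b ∈ Finset.Ioi a, ∑ c : Fin 4, ∑ d ∈ Finset.Ioi c, f a b c d‖ ≤ 36 * C := by
  have h1 : ∀ a b, a < b → ‖∑ c : Fin 4, ∑ d ∈ Finset.Ioi c, f a b c d‖ ≤ 6 * C := by
    intro a b hab
    refine (norm_sum_le _ _).trans ?_
    have h2 : ∀ c ∈ (Finset.univ : Finset (Fin 4)), ‖∑ d ∈ Finset.Ioi c, f a b c d‖ ≤
        ((Finset.Ioi c).card : ℝ) * C := by
      intro c _
      refine (norm_sum_le _ _).trans ?_
      refine (Finset.sum_le_card_nsmul _ _ C fun d hd => h a b c d hab (Finset.mem_Ioi.1 hd)).trans ?_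
      rw [nsmul_eq_mul]
    refine (Finset.sum_le_sum h2).trans (le_of_eq ?_)
    rw [← Finset.sum_mul]
    congr 1
    have : (∑ c : Fin 4, (Finset.Ioi c).card) = 6 := by decide
    exact_mod_cast this
  refine (norm_sum_le _ _).trans ?_
  have h2 : ∀ a ∈ (Finset.univ : Finset (Fin 4)),
      ‖∑ b ∈ Finset.Ioi a, ∑ c : Fin 4, ∑ d ∈ Finset.Ioi c, f a b c d‖ ≤
      ((Finset.Ioi a).card : ℝ) * (6 * C) := by
    intro a _
    refine (norm_sum_le _ _).trans ?_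
    refine (Finset.sum_le_card_nsmul _ _ (6 * C) fun b hb => h1 a b (Finset.mem_Ioi.1 hb)).trans ?_
    rw [nsmul_eq_mul]
  refine (Finset.sum_le_sum h2).trans (le_of_eq ?_)
  rw [← Finset.sum_mul]
  have : (∑ c : Fin 4, (Finset.Ioi c).card) = 6 := by decide
  have h3 : (∑ c : Fin 4, ((Finset.Ioi c).card : ℝ)) = 6 := by exact_mod_cast this
  rw [h3]
  ring

/-- **The two-point functions of the bilinear local gauge invariant fields.** -/
theorem finU (hV6 : S_V6) (hK1 : S_K1) (hK2 : S_K2) (hK3 : S_K3) (N k : ℕ) (hN : 2 ≤ N)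
    (hk : Nat.Coprime k N) [MeasurableSpace (SU N)] [BorelSpace (SU N)] (μ : Measure (SU N))
    [IsProbabilityMeasure μ] [μ.IsHaarMeasure] :
    ∃ p : ℕ, ∀ δ T B₀ ε : ℝ, 0 < δ → 0 < ε → ∃ l₁ : ℕ, ∀ (l : ℕ) [NeZero l], l₁ ≤ l →
      ∀ β : ℝ, (l : ℝ) ^ p ≤ β → ∀ ν : Measure (LinkZ l → SU N), IsLimit k μ β ν →
      ∀ u v : Fin 4 → Fin 4 → ℝ, (∀ a b, |u a b| ≤ B₀) → (∀ a b, |v a b| ≤ B₀) →
      ∀ x y : SiteZ l, δ * l ≤ x.1 - y.1 →
        |(x.1 : ℝ)| ≤ T * l → |(x.2.1 : ℝ)| ≤ T * l → |(y.1 : ℝ)| ≤ T * l →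
        |(y.2.1 : ℝ)| ≤ T * l →
        |(l : ℝ) ^ 8 * (∫ V, localField k β V u x * localField k β V v y ∂ν -
            (∫ V, localField k β V u x ∂ν) * ∫ V, localField k β V v y ∂ν) -
          1 / 2 * ∑ α ∈ (Finset.univ : Finset (Fin N × Fin N)).filter
            (fun α => (α.1 : ℕ) ≠ 0 ∨ (α.2 : ℕ) ≠ 0), ‖twoPointU N k α u v (sep x y)‖ ^ 2| ≤
          ε := by
  haveI : NeZero N := ⟨by omega⟩
  obtain ⟨p, hp⟩ := hV6 N k hN hk μ
  refine ⟨p, fun δ T B₀ ε hδ hε => ?_⟩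
  -- the bounds of the limit
  have hB' : ∀ (α : Col N) (a b c d : Fin 4), ∃ B : ℝ, 0 ≤ B ∧ (α ≠ (0, 0) →
      ∀ z : Fin 4 → ℝ, δ ≤ z 0 → ‖twoPoint N k α a b c d z‖ ≤ B) := by
    intro α a b c d
    by_cases h : α = (0, 0)
    · exact ⟨0, le_rfl, fun h' => absurd h h'⟩
    · obtain ⟨B, hB⟩ := hK3 N k hk α h a b c d δ hδ
      exact ⟨max B 0, le_max_right _ _, fun _ z hz => (hB z hz).trans (le_max_left _ _)⟩
  choose B hB0 hB using hB'
  obtain ⟨BB, hBB0, hBB⟩ : ∃ BB : ℝ, 0 ≤ BB ∧ ∀ (α : Col N) (a b c d : Fin 4),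
      B α a b c d ≤ BB := by
    obtain ⟨M, hM⟩ := Finite.exists_max fun i : Col N × Fin 4 × Fin 4 × Fin 4 × Fin 4 =>
      B i.1 i.2.1 i.2.2.1 i.2.2.2.1 i.2.2.2.2
    exact ⟨_, hB0 _ _ _ _ _, fun α a b c d => hM (α, a, b, c, d)⟩
  obtain ⟨T', hT'⟩ := exists_nat_ge (max (max T B₀) 1)
  have hT1 : (1 : ℝ) ≤ T' := (le_max_right _ _).trans hT'
  have hTT : T ≤ T' := (le_max_left _ _).trans ((le_max_left _ _).trans hT')
  have hTB : B₀ ≤ T' := (le_max_right _ _).trans ((le_max_left _ _).trans hT')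
  obtain ⟨K, hK⟩ : ∃ K : ℝ, K = 36 * (T' : ℝ) ^ 2 := ⟨_, rfl⟩
  have hK0 : 0 < K := by
    rw [hK]
    positivity
  obtain ⟨l0, hl0⟩ := hp T'
  -- the accuracy
  have hN2 : (0 : ℝ) < (N : ℝ) ^ 2 := by
    have : (0 : ℝ) < N := by exact_mod_cast NeZero.pos N
    positivity
  obtain ⟨η', hη'⟩ : ∃ η' : ℝ, η' = min 1 (ε / (2 * (N ^ 2 * (2 * (K * BB) + 1)))) := ⟨_, rfl⟩
  have hη0' : 0 < η' := by
    rw [hη']
    exact lt_min one_pos (by positivity)
  have hη1 : η' ≤ 1 := hη' ▸ min_le_left _ _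
  have hη2 : N ^ 2 * (η' * (2 * (K * BB) + 1)) ≤ ε / 2 := by
    have h1 : η' ≤ ε / (2 * (N ^ 2 * (2 * (K * BB) + 1))) := hη' ▸ min_le_right _ _
    rw [le_div_iff₀ (by positivity)] at h1
    linarith
  obtain ⟨η, hη⟩ : ∃ η : ℝ, η = η' / K := ⟨_, rfl⟩
  have hη0 : 0 < η := by
    rw [hη]
    positivity
  have hKη : K * η = η' := by
    rw [hη]
    field_simp
  -- the limit of the kernel
  have hall : ∀ᶠ l : ℕ in atTop, ∀ (α : Col N) (a b c d : Fin 4), α ≠ (0, 0) → ∀ [NeZero l],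
      ∀ m : ℕ, l ^ 2 ≤ m → ∀ t z y y' : ℤ, δ * l ≤ t → (t : ℝ) ≤ (2 * T') * l →
      |(z : ℝ)| ≤ (2 * T') * l → |(y : ℝ)| ≤ l → |(y' : ℝ)| ≤ l →
      ‖(l : ℂ) ^ 4 * LS N k l m α a b c d t z y y' -
        twoPoint N k α a b c d ![(t : ℝ) / l, (z : ℝ) / l, (y : ℝ) / l, (y' : ℝ) / l]‖ ≤ η := by
    rw [eventually_all]
    intro α
    rw [eventually_all]
    intro a
    rw [eventually_all]
    intro b
    rw [eventually_all]
    intro c
    rw [eventually_all]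
    intro d
    by_cases h : α = (0, 0)
    · exact Eventually.of_forall fun l h' => absurd h h'
    · obtain ⟨l1, hl1⟩ := hK2 N k hk α h a b c d δ (2 * T') η hδ hη0
      exact eventually_atTop.2 ⟨l1, fun l hl _ _ => hl1 l hl⟩
  obtain ⟨l2, hl2⟩ := eventually_atTop.1 hall
  obtain ⟨l3, hl3⟩ := exists_nat_ge (max (2 / ε) (T' + 1))
  refine ⟨max (max l0 l2) l3, fun l _ hl β hβ ν hν u v hu hv x y hxy hx1 hx2 hy1 hy2 => ?_⟩
  have g0 : l0 ≤ l := (le_max_left _ _).trans ((le_max_left _ _).trans hl)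
  have g2 : l2 ≤ l := (le_max_right _ _).trans ((le_max_left _ _).trans hl)
  have g3 : (l3 : ℝ) ≤ l := by exact_mod_cast (le_max_right _ _).trans hl
  have hlr : (0 : ℝ) < l := by exact_mod_cast NeZero.pos l
  have hle : 2 / ε ≤ l := ((le_max_left _ _).trans hl3).trans g3
  have hlT : (T' : ℝ) + 1 ≤ l := ((le_max_right _ _).trans hl3).trans g3
  have hlTn : T' + 1 ≤ l := by exact_mod_cast hlT
  have q1 : ∀ z : ℤ, |(z : ℝ)| ≤ T * l → |(z : ℝ)| ≤ T' * l := fun z hz =>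
    hz.trans (mul_le_mul_of_nonneg_right hTT hlr.le)
  have q2 : ∀ z : ℤ, |(z : ℝ)| ≤ T * l → |z| ≤ T' * l := fun z hz => by
    exact_mod_cast q1 z hz
  obtain ⟨m, hm, hcov⟩ := hl0 l g0 β hβ ν hν
  have hm1 : 1 ≤ m := (Nat.one_le_pow _ _ (NeZero.pos l)).trans hm
  haveI : NeZero m := ⟨by omega⟩
  haveI : NeZero (2 * m) := ⟨by omega⟩
  have hc := hcov u v (fun a b => (hu a b).trans hTB) (fun a b => (hv a b).trans hTB) x y
    (q2 _ hx1) (q2 _ hx2) (q2 _ hy1) (q2 _ hy2)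
  -- the times
  have ht1 : (0 : ℝ) < ((x.1 - y.1 : ℤ) : ℝ) := by
    push_cast
    exact (mul_pos hδ hlr).trans_le hxy
  have ht1' : 1 ≤ x.1 - y.1 := by
    have : (0 : ℤ) < x.1 - y.1 := by exact_mod_cast ht1
    omega
  have e1 := abs_le.1 (q2 _ hx1)
  have e2 := abs_le.1 (q2 _ hy1)
  have e3 := abs_le.1 (q1 _ hx2)
  have e4 := abs_le.1 (q1 _ hy2)
  have ht2 : x.1 - y.1 ≤ 2 * m - 1 := by
    have h1 : (T' + 1) * l ≤ l ^ 2 := by
      rw [sq]
      exact Nat.mul_le_mul_right _ hlTn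
    have h2 : (T' + 1) * l ≤ m := h1.trans hm
    have h3 : ((T' : ℤ) + 1) * l ≤ m := by exact_mod_cast h2
    have h4 : (1 : ℤ) ≤ l := by exact_mod_cast NeZero.pos l
    nlinarith [e1.2, e2.1]
  have ht3 : (((x.1 - y.1 : ℤ) : ℤ) : ℝ) ≤ (2 * T') * l := by
    have h1 : x.1 - y.1 ≤ 2 * (T' * l) := by linarith [e1.2, e2.1]
    have h2 : ((x.1 - y.1 : ℤ) : ℝ) ≤ 2 * (T' * l) := by exact_mod_cast h1
    linarith
  have hz3 : |(((x.2.1 - y.2.1 : ℤ) : ℤ) : ℝ)| ≤ (2 * T') * l := by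
    push_cast
    rw [abs_le]
    constructor <;> linarith [e3.1, e3.2, e4.1, e4.2]
  -- the terms
  have huv : ∀ a b c d, |u a b * v c d| ≤ (T' : ℝ) ^ 2 := by
    intro a b c d
    rw [abs_mul, sq]
    exact mul_le_mul ((hu a b).trans hTB) ((hv c d).trans hTB) (abs_nonneg _) (by linarith)
  have key : ∀ α : Col N, α ≠ (0, 0) →
      |(l : ℝ) ^ 8 * ‖kru k α u v (prj m x) (prj m y)‖ ^ 2 -
        ‖twoPointU N k α u v (sep x y)‖ ^ 2| ≤ η' * (2 * (K * BB) + 1) := by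
    intro α hα
    have k1 : ∀ a b c d : Fin 4, c < d →
        ‖(l : ℂ) ^ 4 * kr k α a b c d (prj m x) (prj m y) - twoPoint N k α a b c d (sep x y)‖ ≤
          η := by
      intro a b c d hcd
      rw [hK1 N k m l hk α hα a b c d hcd.ne x y ht1' ht2]
      exact hl2 l g2 α a b c d hα m hm (x.1 - y.1) (x.2.1 - y.2.1)
        (((x.2.2.1 - 1).val : ℤ) - ((y.2.2.1 - 1).val : ℤ))
        (((x.2.2.2 - 1).val : ℤ) - ((y.2.2.2 - 1).val : ℤ)) (by push_cast; exact hxy) ht3 hz3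
        (val_sub_le _ _) (val_sub_le _ _)
    have k2 : ∀ a b c d : Fin 4, ‖twoPoint N k α a b c d (sep x y)‖ ≤ BB := by
      intro a b c d
      refine (hB α a b c d hα _ ?_).trans (hBB α a b c d)
      have : sep x y 0 = ((x.1 - y.1 : ℤ) : ℝ) / l := rfl
      rw [this, le_div_iff₀ hlr]
      push_cast
      exact hxy
    have h2 : ‖twoPointU N k α u v (sep x y)‖ ≤ K * BB := by
      unfold twoPointU
      refine (sum_planes_le _ (C := (T' : ℝ) ^ 2 * BB) fun a b c d _ _ => ?_).trans (le_of_eq ?_)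
      · rw [norm_mul, Complex.norm_real, Real.norm_eq_abs]
        exact mul_le_mul (huv a b c d) (k2 a b c d) (norm_nonneg _) (by positivity)
      · rw [hK]
        ring
    set A := (l : ℂ) ^ 4 * kru k α u v (prj m x) (prj m y) with hA
    have h1 : ‖A - twoPointU N k α u v (sep x y)‖ ≤ η' := by
      have e : A - twoPointU N k α u v (sep x y) =
          ∑ a : Fin 4, ∑ b ∈ Finset.Ioi a, ∑ c : Fin 4, ∑ d ∈ Finset.Ioi c,
            ((u a b * v c d : ℝ) : ℂ) * ((l : ℂ) ^ 4 * kr k α a b c d (prj m x) (prj m y) -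
              twoPoint N k α a b c d (sep x y)) := by
        rw [hA]
        unfold kru twoPointU
        simp only [Finset.mul_sum, ← Finset.sum_sub_distrib]
        refine Finset.sum_congr rfl fun a _ => Finset.sum_congr rfl fun b _ =>
          Finset.sum_congr rfl fun c _ => Finset.sum_congr rfl fun d _ => ?_
        ring
      rw [e]
      refine (sum_planes_le _ (C := (T' : ℝ) ^ 2 * η) fun a b c d _ hcd => ?_).trans (le_of_eq ?_)
      · rw [norm_mul, Complex.norm_real, Real.norm_eq_abs]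
        exact mul_le_mul (huv a b c d) (k1 a b c d hcd) (norm_nonneg _) (by positivity)
      · rw [← hKη, hK]
        ring
    have h3 : (l : ℝ) ^ 8 * ‖kru k α u v (prj m x) (prj m y)‖ ^ 2 = ‖A‖ ^ 2 := by
      rw [hA, norm_mul, norm_pow, Complex.norm_natCast]
      ring
    rw [h3]
    have h4 : |‖A‖ - ‖twoPointU N k α u v (sep x y)‖| ≤ η' :=
      (abs_norm_sub_norm_le _ _).trans h1
    have h5 : ‖A‖ ^ 2 - ‖twoPointU N k α u v (sep x y)‖ ^ 2 =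
        (‖A‖ - ‖twoPointU N k α u v (sep x y)‖) *
          (‖A‖ + ‖twoPointU N k α u v (sep x y)‖) := by ring
    rw [h5, abs_mul]
    have h6 : |‖A‖ + ‖twoPointU N k α u v (sep x y)‖| ≤ 2 * (K * BB) + 1 := by
      rw [abs_of_nonneg (add_nonneg (norm_nonneg _) (norm_nonneg _))]
      have := (abs_le.1 h4).2
      linarith
    exact mul_le_mul h4 h6 (abs_nonneg _) hη0'.le
  have hfil : (Finset.univ : Finset (Fin N × Fin N)).filter
      (fun α => (α.1 : ℕ) ≠ 0 ∨ (α.2 : ℕ) ≠ 0) = Cz N := by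
    ext α
    rw [Finset.mem_filter, Cz, Finset.mem_erase]
    constructor
    · rintro ⟨-, h⟩
      refine ⟨fun h' => ?_, Finset.mem_univ _⟩
      rw [h'] at h
      simp at h
    · rintro ⟨h, -⟩
      refine ⟨Finset.mem_univ _, ?_⟩
      by_contra h'
      push Not at h'
      exact h (Prod.ext (Fin.ext (by simpa using h'.1)) (Fin.ext (by simpa using h'.2)))
  rw [hfil]
  have hsum : |∑ α ∈ Cz N, (l : ℝ) ^ 8 * ‖kru k α u v (prj m x) (prj m y)‖ ^ 2 -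
      ∑ α ∈ Cz N, ‖twoPointU N k α u v (sep x y)‖ ^ 2| ≤ ε / 2 := by
    rw [← Finset.sum_sub_distrib]
    refine (Finset.abs_sum_le_sum_abs _ _).trans ?_
    refine (Finset.sum_le_card_nsmul _ _ _ fun α hα => key α (Finset.ne_of_mem_erase hα)).trans ?_
    rw [nsmul_eq_mul]
    refine le_trans (mul_le_mul_of_nonneg_right ?_ (by positivity)) hη2
    have : (Cz N).card ≤ N ^ 2 := by
      refine (Finset.card_le_card (Finset.erase_subset _ _)).trans ?_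
      rw [Finset.card_univ, Fintype.card_prod, Fintype.card_fin, sq]
    exact_mod_cast this
  rw [← Finset.mul_sum] at hsum
  have h9 : (l : ℝ) ^ 8 * ((l : ℝ) ^ 9)⁻¹ ≤ ε / 2 := by
    have : (l : ℝ) ^ 8 * ((l : ℝ) ^ 9)⁻¹ = 1 / l := by field_simp
    rw [this, div_le_div_iff₀ hlr (by norm_num)]
    rw [div_le_iff₀ hε] at hle
    linarith
  obtain ⟨cv, hcv⟩ : ∃ cv, cv = ∫ V, localField k β V u x * localField k β V v y ∂ν -
    (∫ V, localField k β V u x ∂ν) * ∫ V, localField k β V v y ∂ν := ⟨_, rfl⟩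
  rw [← hcv] at hc ⊢
  obtain ⟨s1, hs1⟩ : ∃ s1, s1 = ∑ α ∈ Cz N, ‖kru k α u v (prj m x) (prj m y)‖ ^ 2 := ⟨_, rfl⟩
  obtain ⟨s2, hs2⟩ : ∃ s2, s2 = ∑ α ∈ Cz N, ‖twoPointU N k α u v (sep x y)‖ ^ 2 := ⟨_, rfl⟩
  rw [← hs1] at hc hsum
  rw [← hs2] at hsum ⊢
  have h10 : |(l : ℝ) ^ 8 * (cv - 1 / 2 * s1)| ≤ ε / 2 := by
    rw [abs_mul, abs_of_pos (pow_pos hlr 8)]
    exact (mul_le_mul_of_nonneg_left hc (by positivity)).trans h9
  have e5 : (l : ℝ) ^ 8 * cv - 1 / 2 * s2 = (l : ℝ) ^ 8 * (cv - 1 / 2 * s1) +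
      1 / 2 * ((l : ℝ) ^ 8 * s1 - s2) := by ring
  rw [e5]
  refine (abs_add_le _ _).trans ?_
  rw [abs_mul (1 / 2 : ℝ), abs_of_pos (by norm_num : (0 : ℝ) < 1 / 2)]
  linarith

end

end Run7.h630.QW
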