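import Pool.Agent.Run7.h630.QW.K4
import Pool.Agent.Run7.h630.QW.Fin2

/-!
# The decay of the limits of the two-point functions
-/

open MeasureTheory Filter Topology

namespace Run7.h630.QW

open Run7.h4.YM Run7.h630.WL Run7.h630.QC Run7.h630.QF

noncomputable section

/-- the decay with the rate `4 π / N` -/
theorem decay (N k : ℕ) (hk : Nat.Coprime k N) (δ B : ℝ) (hδ : 0 < δ) :
    ∃ K : ℝ, ∀ u v : Fin 4 → Fin 4 → ℝ, (∀ a b, |u a b| ≤ B) → (∀ a b, |v a b| ≤ B) →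
      ∀ z : Fin 4 → ℝ, δ ≤ z 0 →
      1 / 2 * ∑ α ∈ (Finset.univ : Finset (Fin N × Fin N)).filter
        (fun α => (α.1 : ℕ) ≠ 0 ∨ (α.2 : ℕ) ≠ 0), ‖twoPointU N k α u v z‖ ^ 2 ≤
      K * Real.exp (-(4 * Real.pi / N * z 0)) := by
  have hB' : ∀ (α : Fin N × Fin N) (a b c d : Fin 4), ∃ C : ℝ, 0 ≤ C ∧
      (((α.1 : ℕ) ≠ 0 ∨ (α.2 : ℕ) ≠ 0) → ∀ z : Fin 4 → ℝ, δ ≤ z 0 →
        ‖twoPoint N k α a b c d z‖ ≤ C * Real.exp (-(2 * Real.pi / N * z 0))) := by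
    intro α a b c d
    by_cases h : (α.1 : ℕ) ≠ 0 ∨ (α.2 : ℕ) ≠ 0
    · obtain ⟨C, hC0, hC⟩ := K4_core N k hk α h a b c d δ hδ
      exact ⟨C, hC0, fun _ => hC⟩
    · exact ⟨0, le_rfl, fun h' => absurd h' h⟩
  choose C hC0 hC using hB'
  refine ⟨1 / 2 * ∑ α ∈ (Finset.univ : Finset (Fin N × Fin N)).filter
    (fun α => (α.1 : ℕ) ≠ 0 ∨ (α.2 : ℕ) ≠ 0),
      (∑ a : Fin 4, ∑ b ∈ Finset.Ioi a, ∑ c : Fin 4, ∑ d ∈ Finset.Ioi c,
        B ^ 2 * C α a b c d) ^ 2, fun u v hu hv z hz => ?_⟩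
  rw [mul_assoc, Finset.sum_mul]
  refine mul_le_mul_of_nonneg_left (Finset.sum_le_sum fun α hα => ?_) (by norm_num)
  have hα' := (Finset.mem_filter.1 hα).2
  have hB0 : 0 ≤ B := (abs_nonneg _).trans (hu 0 0)
  have h1 : ‖twoPointU N k α u v z‖ ≤ (∑ a : Fin 4, ∑ b ∈ Finset.Ioi a, ∑ c : Fin 4,
      ∑ d ∈ Finset.Ioi c, B ^ 2 * C α a b c d) * Real.exp (-(2 * Real.pi / N * z 0)) := by
    unfold twoPointU
    simp only [Finset.sum_mul]
    refine (norm_sum_le _ _).trans (Finset.sum_le_sum fun a _ => ?_)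
    refine (norm_sum_le _ _).trans (Finset.sum_le_sum fun b _ => ?_)
    refine (norm_sum_le _ _).trans (Finset.sum_le_sum fun c _ => ?_)
    refine (norm_sum_le _ _).trans (Finset.sum_le_sum fun d _ => ?_)
    rw [norm_mul, Complex.norm_real, Real.norm_eq_abs, abs_mul, mul_assoc (B ^ 2)]
    refine mul_le_mul ?_ (hC α a b c d hα' z hz) (norm_nonneg _) (by positivity)
    rw [sq]
    exact mul_le_mul (hu a b) (hv c d) (abs_nonneg _) hB0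
  have h2 := pow_le_pow_left₀ (norm_nonneg _) h1 2
  refine h2.trans (le_of_eq ?_)
  rw [mul_pow, ← Real.exp_nat_mul]
  congr 2
  push_cast
  ring

end

end Run7.h630.QW
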