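import Pool.Agent.Run7.h630.QW.Defs2

/-!
# The two-point function of the limits of the local fields
-/

open MeasureTheory Filter Topology Matrix

namespace Run7.h630.QW

noncomputable section

/-- `1 / 2` times the sum over the colours `α ≠ 0` of the squares of the two-point functions: the
two-point function of the Wick squares of the components `u`, `v` of the field strengths -/
def wickSq (N k : ℕ) (u v : Fin 4 → Fin 4 → ℝ) (z : Fin 4 → ℝ) : ℝ :=
  1 / 2 * ∑ α ∈ (Finset.univ : Finset (Fin N × Fin N)).filter
    (fun α => (α.1 : ℕ) ≠ 0 ∨ (α.2 : ℕ) ≠ 0), ‖twoPointU N k α u v z‖ ^ 2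

end

end Run7.h630.QW
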