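import Pool.Agent.Run7.h630.QW.K4

/-!
# The lower bound of the two-point function of the local fields
-/

open MeasureTheory Filter Topology

namespace Run7.h630.QW

open Run7.h4.YM Run7.h630.WL Run7.h630.QF Run7.h624.QW

noncomputable section

/-- the plane `(2, 3)` -/
def u23 (a b : Fin 4) : ℝ := if a = 2 ∧ b = 3 then 1 else 0

lemma twoPointU_u23 (N k : ℕ) (α : Fin N × Fin N) (z : Fin 4 → ℝ) :
    twoPointU N k α u23 u23 z = twoPoint N k α 2 3 2 3 z := by
  unfold twoPointU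
  rw [Fin.sum_univ_four]
  have e0 : Finset.Ioi (0 : Fin 4) = {1, 2, 3} := by decide
  have e1 : Finset.Ioi (1 : Fin 4) = {2, 3} := by decide
  have e2 : Finset.Ioi (2 : Fin 4) = {3} := by decide
  have e3 : Finset.Ioi (3 : Fin 4) = ∅ := by decide
  simp [Fin.sum_univ_four, e0, e1, e2, e3, u23]

/-- the real integrand -/
def rI (N k : ℕ) (j : Ix N) (t p : ℝ) : ℝ :=
  Real.exp (-(freq N k j p * t)) / (4 * Real.pi * freq N k j p) *
    (mom N k j 2 ^ 2 + mom N k j 3 ^ 2)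

lemma rI_nonneg (N k : ℕ) (j : Ix N) (t p : ℝ) : 0 ≤ rI N k j t p := by
  have := freq_nonneg (k := k) j p
  unfold rI
  positivity

lemma rI_eq (N k : ℕ) (j : Ix N) (t p : ℝ) :
    Complex.exp (Complex.I * ((p * (![t, 0, 0, 0] : Fin 4 → ℝ) 1 +
      mom N k j 2 * (![t, 0, 0, 0] : Fin 4 → ℝ) 2 +
      mom N k j 3 * (![t, 0, 0, 0] : Fin 4 → ℝ) 3 : ℝ) : ℂ) -
      ((freq N k j p * (![t, 0, 0, 0] : Fin 4 → ℝ) 0 : ℝ) : ℂ)) /
        ((4 * Real.pi * freq N k j p : ℝ) : ℂ) *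
        tn (sym N k j p) (fun i => -sym N k j p i) 2 3 2 3 = ((rI N k j t p : ℝ) : ℂ) := by
  have h1 : (![t, 0, 0, 0] : Fin 4 → ℝ) 0 = t := rfl
  have h2 : (![t, 0, 0, 0] : Fin 4 → ℝ) 1 = 0 := rfl
  have h3 : (![t, 0, 0, 0] : Fin 4 → ℝ) 2 = 0 := rfl
  have h4 : (![t, 0, 0, 0] : Fin 4 → ℝ) 3 = 0 := rfl
  have h5 : tn (sym N k j p) (fun i => -sym N k j p i) 2 3 2 3 =
      ((mom N k j 2 ^ 2 + mom N k j 3 ^ 2 : ℝ) : ℂ) := by
    have e2 : sym N k j p 2 = Complex.I * mom N k j 2 := rfl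
    have e3 : sym N k j p 3 = Complex.I * mom N k j 3 := rfl
    unfold tn
    have n1 : (3 : Fin 4) ≠ 2 := by decide
    have n2 : (2 : Fin 4) ≠ 3 := by decide
    simp only [if_true, if_neg n1, if_neg n2, e2, e3]
    have hI := Complex.I_mul_I
    push_cast
    linear_combination (-(mom N k j 2 : ℂ) ^ 2 - (mom N k j 3 : ℂ) ^ 2) * hI
  rw [h1, h2, h3, h4, h5]
  unfold rI
  push_cast
  congr 2
  congr 1
  ring

lemma rI_cont (N k : ℕ) (j : Ix N) (t : ℝ) (h : ∀ p, 0 < freq N k j p) :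
    Continuous fun p => rI N k j t p := by
  have hf : Continuous fun p => freq N k j p := by
    unfold freq
    fun_prop
  unfold rI
  refine Continuous.mul (Continuous.div (by fun_prop) (by fun_prop) fun p => ?_) continuous_const
  have := h p
  positivity

lemma rI_le (N k : ℕ) (j : Ix N) {t : ℝ} (ht : 0 < t) (p : ℝ) :
    rI N k j t p ≤
      (2 / t * (Real.exp (-(t / 4 * |mom N k j 2|)) * Real.exp (-(t / 4 * |mom N k j 3|)))) *
        Real.exp (-(t / 4 * |p|)) := by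
  have h1 := integrand_le (k := k) j 2 3 2 3 ht (z := ![t, 0, 0, 0]) le_rfl p
  rw [rI_eq, Complex.norm_real, Real.norm_eq_abs, abs_of_nonneg (rI_nonneg N k j t p)] at h1
  exact h1

lemma rI_int (N k : ℕ) (j : Ix N) {t : ℝ} (ht : 0 < t) (h : ∀ p, 0 < freq N k j p) :
    Integrable fun p => rI N k j t p := by
  refine Integrable.mono' ((int_exp_abs (show 0 < t / 4 by positivity)).const_mul
    (2 / t * (Real.exp (-(t / 4 * |mom N k j 2|)) * Real.exp (-(t / 4 * |mom N k j 3|)))))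
    (rI_cont N k j t h).aestronglyMeasurable (Eventually.of_forall fun p => ?_)
  rw [Real.norm_eq_abs, abs_of_nonneg (rI_nonneg N k j t p)]
  exact rI_le N k j ht p

/-- the special mode -/
lemma special (N k : ℕ) (hN : 2 ≤ N) (hk : Nat.Coprime k N) :
    ∃ (α : Fin N × Fin N) (n : ℤ × ℤ), (α.1 : ℕ) ≠ 0 ∧ mom N k (α, n) 2 = 0 ∧
      mom N k (α, n) 3 = 2 * Real.pi / N := by
  obtain ⟨c, -, hc⟩ := Nat.exists_mul_mod_eq_one_of_coprime hk (by omega : 1 < N)
  have hN0 : 0 < N := by omega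
  have hNr : (N : ℝ) ≠ 0 := by exact_mod_cast hN0.ne'
  have h1 : k * (c % N) % N = 1 := by rw [← hc, Nat.mul_mod, Nat.mod_mod, ← Nat.mul_mod]
  have h2 := Nat.div_add_mod (k * (c % N)) N
  rw [h1] at h2
  obtain ⟨s, hs⟩ : ∃ s, s = k * (c % N) / N := ⟨_, rfl⟩
  obtain ⟨d, hd⟩ : ∃ d, d = c % N := ⟨_, rfl⟩
  have hdN : d < N := hd ▸ Nat.mod_lt _ hN0
  rw [← hs, ← hd] at h2
  rw [← hd] at h1
  refine ⟨(⟨d, hdN⟩, ⟨0, hN0⟩), (0, -(s : ℤ)), ?_, ?_, ?_⟩
  · intro h
    change d = 0 at h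
    rw [h, mul_zero, Nat.zero_mod] at h1
    exact absurd h1 (by norm_num)
  · change 2 * Real.pi * (((0 : ℤ) : ℝ) - k * ((0 : ℕ) : ℝ) / N) = 0
    simp
  · change 2 * Real.pi * (((-(s : ℤ) : ℤ) : ℝ) + k * (d : ℝ) / N) = 2 * Real.pi / N
    have h3 : (N : ℝ) * (s : ℝ) + 1 = k * (d : ℝ) := by exact_mod_cast h2
    rw [← h3]
    push_cast
    field_simp
    ring

/-- the lower bound -/
theorem K5 (N k : ℕ) (hN : 2 ≤ N) (hk : Nat.Coprime k N) (ε : ℝ) (hε : 0 < ε) :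
    ∃ c : ℝ, 0 < c ∧ ∀ t : ℝ, 0 < t → c * Real.exp (-((4 * Real.pi / N + ε) * t)) ≤
      1 / 2 * ∑ α ∈ (Finset.univ : Finset (Fin N × Fin N)).filter
        (fun α => (α.1 : ℕ) ≠ 0 ∨ (α.2 : ℕ) ≠ 0),
          ‖twoPointU N k α u23 u23 ![t, 0, 0, 0]‖ ^ 2 := by
  obtain ⟨α, n, hα, h2, h3⟩ := special N k hN hk
  have hN0 : (0 : ℝ) < N := by exact_mod_cast (show 0 < N by omega)
  have hpi := Real.pi_pos
  obtain ⟨q, hq⟩ : ∃ q, q = 2 * Real.pi / (N : ℝ) := ⟨_, rfl⟩
  have hq0 : 0 < q := by rw [hq]; positivity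
  rw [← hq] at h3
  obtain ⟨e, he⟩ : ∃ e, e = ε / 2 := ⟨_, rfl⟩
  have he0 : 0 < e := by rw [he]; positivity
  -- the constant
  obtain ⟨r, hr⟩ : ∃ r, r = e / (4 * Real.pi * (q + e)) * q ^ 2 := ⟨_, rfl⟩
  have hr0 : 0 < r := by rw [hr]; positivity
  refine ⟨1 / 2 * r ^ 2, by positivity, fun t ht => ?_⟩
  have hf : ∀ n : ℤ × ℤ, ∀ p, 0 < freq N k (α, n) p := fun n p =>
    hq0.trans_le (hq ▸ freq_ge hk (α, n) (Or.inl hα) p)
  have hcoord : twoPoint N k α 2 3 2 3 ![t, 0, 0, 0] =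
      ((∑' n : ℤ × ℤ, ∫ p : ℝ, rI N k (α, n) t p : ℝ) : ℂ) := by
    rw [Complex.ofReal_tsum]
    unfold twoPoint
    refine tsum_congr fun n => ?_
    rw [← integral_complex_ofReal]
    refine integral_congr_ae (Eventually.of_forall fun p => ?_)
    exact rI_eq N k (α, n) t p
  have hsum : Summable fun n : ℤ × ℤ => ∫ p : ℝ, rI N k (α, n) t p := by
    set u2 : ℝ := k * ((α.2 : ℕ) : ℝ) / N with hu2
    set u3 : ℝ := -(k * ((α.1 : ℕ) : ℝ) / N) with hu3
    have hc : 0 < t / 4 * (2 * Real.pi) := by positivity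
    have s2 := summable_exp_abs hc u2
    have s3 := summable_exp_abs hc u3
    set I0 : ℝ := ∫ p : ℝ, Real.exp (-(t / 4 * |p|)) with hI0
    have hs : Summable (fun n : ℤ × ℤ => (2 / t * (Real.exp (-(t / 4 * |mom N k (α, n) 2|)) *
        Real.exp (-(t / 4 * |mom N k (α, n) 3|)))) * I0) := by
      have h1 : Summable (fun n : ℤ × ℤ =>
          Real.exp (-(t / 4 * (2 * Real.pi) * |(n.1 : ℝ) - u2|)) *
          Real.exp (-(t / 4 * (2 * Real.pi) * |(n.2 : ℝ) - u3|))) :=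
        s2.mul_of_nonneg s3 (fun _ => (Real.exp_pos _).le) (fun _ => (Real.exp_pos _).le)
      refine ((h1.mul_left (2 / t)).mul_right I0).congr fun n => ?_
      have h2 : |mom N k (α, n) 2| = 2 * Real.pi * |(n.1 : ℝ) - u2| := by
        show |2 * Real.pi * ((n.1 : ℝ) - k * ((α.2 : ℕ) : ℝ) / N)| = _
        rw [abs_mul, abs_of_pos (by positivity : 0 < 2 * Real.pi)]
      have h3 : |mom N k (α, n) 3| = 2 * Real.pi * |(n.2 : ℝ) - u3| := by
        show |2 * Real.pi * ((n.2 : ℝ) + k * ((α.1 : ℕ) : ℝ) / N)| = _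
        rw [abs_mul, abs_of_pos (by positivity : 0 < 2 * Real.pi), hu3, sub_neg_eq_add]
      rw [h2, h3]
      simp only [mul_assoc]
    refine Summable.of_nonneg_of_le (fun n => integral_nonneg fun p => rI_nonneg N k (α, n) t p)
      (fun n => ?_) hs
    rw [hI0, ← integral_const_mul]
    exact integral_mono (rI_int N k (α, n) ht (hf n))
      ((int_exp_abs (show 0 < t / 4 by positivity)).const_mul _) fun p => rI_le N k (α, n) ht p
  have hone : r * Real.exp (-((q + e) * t)) ≤ ∫ p : ℝ, rI N k (α, n) t p := by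
    have hlow : ∀ p, (Set.Icc (0 : ℝ) e).indicator
        (fun _ => Real.exp (-((q + e) * t)) / (4 * Real.pi * (q + e)) * q ^ 2) p ≤
          rI N k (α, n) t p := by
      intro p
      by_cases hp : p ∈ Set.Icc (0 : ℝ) e
      · rw [Set.indicator_of_mem hp]
        have hfr : freq N k (α, n) p ≤ q + e := by
          unfold freq
          rw [h2, h3]
          refine Real.sqrt_le_iff.2 ⟨by positivity, ?_⟩
          have := hp.1
          have := hp.2
          nlinarith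
        have hf0 := hf n p
        unfold rI
        rw [h2, h3]
        have e1 : (0 : ℝ) ^ 2 + q ^ 2 = q ^ 2 := by ring
        rw [e1]
        gcongr
      · rw [Set.indicator_of_notMem hp]
        exact rI_nonneg _ _ _ _ _
    have h4 := integral_mono ((integrable_indicator_iff measurableSet_Icc).2
      (integrableOn_const (by simp))) (rI_int N k (α, n) ht (hf n)) hlow
    rw [integral_indicator measurableSet_Icc, setIntegral_const] at h4
    refine le_trans (le_of_eq ?_) h4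
    rw [Measure.real, Real.volume_Icc, sub_zero, ENNReal.toReal_ofReal he0.le, hr, smul_eq_mul]
    ring
  have hge : r * Real.exp (-((q + e) * t)) ≤ ‖twoPointU N k α u23 u23 ![t, 0, 0, 0]‖ := by
    rw [twoPointU_u23, hcoord, Complex.norm_real, Real.norm_eq_abs]
    refine hone.trans ((hsum.le_tsum n fun m _ => integral_nonneg fun p =>
      rI_nonneg N k (α, m) t p).trans (le_abs_self _))
  have hmem : α ∈ (Finset.univ : Finset (Fin N × Fin N)).filter
      (fun α => (α.1 : ℕ) ≠ 0 ∨ (α.2 : ℕ) ≠ 0) :=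
    Finset.mem_filter.2 ⟨Finset.mem_univ _, Or.inl hα⟩
  have h5 := Finset.single_le_sum
    (f := fun α => ‖twoPointU N k α u23 u23 ![t, 0, 0, 0]‖ ^ 2) (fun α _ => sq_nonneg _) hmem
  have h6 := pow_le_pow_left₀ (by positivity) hge 2
  have h7 : (r * Real.exp (-((q + e) * t))) ^ 2 =
      r ^ 2 * Real.exp (-((4 * Real.pi / N + ε) * t)) := by
    rw [mul_pow, ← Real.exp_nat_mul]
    congr 2
    rw [hq, he]
    push_cast
    ring
  rw [h7] at h6
  calc 1 / 2 * r ^ 2 * Real.exp (-((4 * Real.pi / N + ε) * t)) =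
        1 / 2 * (r ^ 2 * Real.exp (-((4 * Real.pi / N + ε) * t))) := by ring
    _ ≤ _ := mul_le_mul_of_nonneg_left (h6.trans h5) (by norm_num)

end

end Run7.h630.QW
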