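import Pool.Agent.Run7.h630.QW.Main
import Pool.Agent.Run7.h630.QW.Dec
import Pool.Agent.Run7.h630.QW.Defs4
import Pool.Agent.Run7.h630.QW.K5

/-!
# The local gauge invariant fields: the limit and its mass
-/

open MeasureTheory Filter Topology

namespace Run7.h630.QW

open Run7.h4.YM Run7.h630.WL Run7.h630.QC Run7.h630.QF

noncomputable section

/-- the continuum limit of the local gauge invariant fields, and its mass -/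
theorem main2 (N k : ℕ) (hN : 2 ≤ N) (hk : Nat.Coprime k N) [MeasurableSpace (SU N)]
    [BorelSpace (SU N)] (μ : Measure (SU N)) [IsProbabilityMeasure μ] [μ.IsHaarMeasure] :
    (∃ p : ℕ, (∃ l₀ : ℕ, ∀ (l : ℕ) [NeZero l], l₀ ≤ l → ∀ β : ℝ, (l : ℝ) ^ p ≤ β →
        ∃ ν : Measure (LinkZ l → SU N), IsLimit k μ β ν) ∧
      ∀ δ T B ε : ℝ, 0 < δ → 0 < ε → ∃ l₁ : ℕ, ∀ (l : ℕ) [NeZero l], l₁ ≤ l →
      ∀ β : ℝ, (l : ℝ) ^ p ≤ β → ∀ ν : Measure (LinkZ l → SU N), IsLimit k μ β ν →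
      ∀ u v : Fin 4 → Fin 4 → ℝ, (∀ a b, |u a b| ≤ B) → (∀ a b, |v a b| ≤ B) →
      ∀ x y : SiteZ l, δ * l ≤ x.1 - y.1 →
        |(x.1 : ℝ)| ≤ T * l → |(x.2.1 : ℝ)| ≤ T * l → |(y.1 : ℝ)| ≤ T * l →
        |(y.2.1 : ℝ)| ≤ T * l →
        |(l : ℝ) ^ 8 * (∫ V, localField k β V u x * localField k β V v y ∂ν -
            (∫ V, localField k β V u x ∂ν) * ∫ V, localField k β V v y ∂ν) -
          wickSq N k u v (sep x y)| ≤ ε) ∧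
    (∀ δ B : ℝ, 0 < δ → ∃ K : ℝ, ∀ u v : Fin 4 → Fin 4 → ℝ, (∀ a b, |u a b| ≤ B) →
      (∀ a b, |v a b| ≤ B) → ∀ z : Fin 4 → ℝ, δ ≤ z 0 →
        wickSq N k u v z ≤ K * Real.exp (-(4 * Real.pi / N * z 0))) ∧
    ∃ u : Fin 4 → Fin 4 → ℝ, ∀ ε : ℝ, 0 < ε → ∃ c : ℝ, 0 < c ∧ ∀ t : ℝ, 0 < t →
      c * Real.exp (-((4 * Real.pi / N + ε) * t)) ≤ wickSq N k u u ![t, 0, 0, 0] :=
  ⟨(main N k hN hk μ).2, fun δ B hδ => decay N k hk δ B hδ, u23,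
    fun ε hε => K5 N k hN hk ε hε⟩

end

end Run7.h630.QW
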