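import Pool.Agent.Run7.h630.QF.Defs

/-!
# The local gauge invariant fields of the gauge theory on `Z² x (Z/l)²`
-/

open MeasureTheory Filter Topology Matrix

namespace Run7.h630.QW

open Run7.h4.YM Run7.h630.WL Run7.h630.QF

noncomputable section

/-- the energy of the plaquette `(a, b)` at `x`, times `β`: `(β / 2) tr (F_ab^* F_ab)` -/
def energy {N l : ℕ} (k : ℕ) (β : ℝ) (V : LinkZ l → SU N) (x : SiteZ l) (a b : Fin 4) : ℝ :=
  β / 2 * (trace ((curvZ k V x a b)ᴴ * curvZ k V x a b)).re

/-- the tensor structure of the two-point function of the field strength -/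
def tn (f g : Fin 4 → ℂ) (i j i' j' : Fin 4) : ℂ :=
  (if j = j' then f i * g i' else 0) - (if j = i' then f i * g j' else 0) -
    (if i = j' then f j * g i' else 0) + (if i = i' then f j * g j' else 0)

/-- the frequency of the mode `j` with the momentum `p` in the direction `1` -/
def freq (N k : ℕ) (j : Ix N) (p : ℝ) : ℝ := Real.sqrt (p ^ 2 + mom N k j 2 ^ 2 + mom N k j 3 ^ 2)

/-- the symbol of the derivatives -/
def sym (N k : ℕ) (j : Ix N) (p : ℝ) : Fin 4 → ℂ :=
  ![-(freq N k j p : ℂ), Complex.I * p, Complex.I * mom N k j 2, Complex.I * mom N k j 3]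

/-- the two-point function of the components `F_ab`, `F_cd` of the free electromagnetic field of the
colour `α` on `R² x T²`, with twisted boundary conditions, at the difference `z` of two points, at
the positive time `z 0` -/
def twoPoint (N k : ℕ) (α : Fin N × Fin N) (a b c d : Fin 4) (z : Fin 4 → ℝ) : ℂ :=
  ∑' n : ℤ × ℤ, ∫ p : ℝ, Complex.exp (Complex.I * ((p * z 1 + mom N k (α, n) 2 * z 2 +
    mom N k (α, n) 3 * z 3 : ℝ) : ℂ) - ((freq N k (α, n) p * z 0 : ℝ) : ℂ)) /
      ((4 * Real.pi * freq N k (α, n) p : ℝ) : ℂ) *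
        tn (sym N k (α, n) p) (fun i => -sym N k (α, n) p i) a b c d

end

end Run7.h630.QW
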