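import Pool.Agent.Run7.h630.WL.Defs

/-!
# Differences of points of the lattice `Z² x (Z/l)²`
-/

namespace Run7.h630.QW

open Run7.h630.WL

noncomputable section

/-- the difference of two points, in units of the side of the compact torus -/
def sep {l : ℕ} (x y : SiteZ l) : Fin 4 → ℝ :=
  ![((x.1 - y.1 : ℤ) : ℝ) / l, ((x.2.1 - y.2.1 : ℤ) : ℝ) / l,
    (((x.2.2.1 - 1).val : ℤ) - ((y.2.2.1 - 1).val : ℤ) : ℤ) / l,
    (((x.2.2.2 - 1).val : ℤ) - ((y.2.2.2 - 1).val : ℤ) : ℤ) / l]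

end

end Run7.h630.QW
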