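import Pool.Agent.Run7.h630.QF.Iface
import Pool.Agent.Run7.h630.QW.Defs

/-!
# The two-point functions of the local gauge invariant fields: interface

The aim: for `β ≥ l ^ p` the connected two-point function of the plaquette energies
`β (N - Re z tr U_p)`, at times which differ by at least `δ l`, multiplied by `l ^ 8`, converges to
`(1/2) ∑ α ≠ 0, |twoPoint α|²`.
-/

open MeasureTheory Matrix Filter Topology
open scoped Matrix.Norms.Frobenius ComplexConjugate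
open Pool.Agent.Run7.h897 (TW.CrS)
open Pool.Agent.Run7.h897.ST (S4 S6 mu6)
open Pool.Agent.Run7.h871.TC (wE)

namespace Run7.h630.QW

open Run7.h4.YM Run7.h630.WL Run7.h630.MQ Run7.h630.QC Run7.h630.ML Run7.h630.QF

noncomputable section

variable {N n L l : ℕ}

/-- the opposite colour -/
def ng [NeZero N] (α : Col N) : Col N :=
  (⟨(N - α.1) % N, Nat.mod_lt _ (NeZero.pos N)⟩, ⟨(N - α.2) % N, Nat.mod_lt _ (NeZero.pos N)⟩)

/-- the leading part of `tw` -/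
def tw0 [NeZero N] (χ : Col N → ℂ) (a : Col N → Fin 4 → Site n L l → ℂ) (α : Col N) (i : Fin 4)
    (x : Site n L l) : ℂ := N * conj (a (ng α) i x * χ α)

/-- the traces of the products of two dressings are known up to `ss` -/
def IsChi (N k : ℕ) [NeZero N] (χ : Col N → ℂ) : Prop :=
  (∀ α, ‖χ α‖ = 1) ∧ (∀ α, χ (ng α) = χ α) ∧ ∃ C : ℝ, ∃ p : ℕ, 0 < C ∧
    ∀ (n L l : ℕ) [NeZero n] [NeZero L] [NeZero l] (q : ZMod n × ZMod L → ZMod N)
      (U : Link n L l → SU N) (α α' : Col N) (x : Site n L l),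
      ‖trace ((Dr α U x).1 * (Dr α' U x).1) - (if α' = ng α then N * χ α else 0)‖ ≤
        C * l ^ p * ss k q U

/-- W1: the phases exist. Proof: `P = lp U x`, `Q = lq U x`. `tr P^j = O(ss)` for `0 < j < N` (`Q2`
with `α' = (0,0)`), so by Newton's identities the characteristic polynomial of `P` is
`X^N + (-1)^N + O(ss)` (`det P = 1`), and `‖P^N - (-1)^(N+1)‖ = O(ss)` (each eigenvalue, `P` is
normal; or Cayley-Hamilton); the same for `Q`; `P Q = (phase) Q P + O(ss)` (transport, `Q1`). The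
traces with `α' ≠ ng α`: `Q2`, since `D_α'` is near a phase times the adjoint of `D_(ng α')`. -/
def S_W1 : Prop := ∀ (N k : ℕ) [NeZero N], Nat.Coprime k N → ∃ χ : Col N → ℂ, IsChi N k χ

/-- the variance of the field with the coefficients `f` -/
def cc [NeZero N] [NeZero n] [NeZero L] [NeZero l] (χ : Col N → ℂ) (k : ℕ)
    (f : Col N → Fin 4 → Fin 4 → Site n L l → ℂ) : ℝ :=
  (N / 2 : ℝ) * prg k f (po k f) - 1 / 2 * prg k f (tw0 χ (po k f))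

/-- W3: the Schwinger-Dyson equations with `g y = √β y` and `g y = (√β y) ^ 3`, for fixed `q`. From
R1, R3, R4, R5, `Q4`, `Q5a` (bound of `po f`), `Q6`, exactly as `Run7.h882.QF.t_R7` (`dSq_bound`
there holds for all `f`; `core_est` for unbounded `g`: `|√β Ph| ≤ V^p M √(β S)`) -/
def S_W3 : Prop := ∀ (N k : ℕ) [NeZero N], Nat.Coprime k N → ∀ χ : Col N → ℂ, IsChi N k χ →
  ∃ C : ℝ, ∃ p : ℕ, 0 < C ∧ ∀ (n L l : ℕ) [NeZero n] [NeZero L] [NeZero l]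
  [MeasurableSpace (SU N)] [BorelSpace (SU N)] (μ : Measure (SU N)) [IsProbabilityMeasure μ]
  [μ.IsHaarMeasure] (q : ZMod n × ZMod L → ZMod N)
  (f : Col N → Fin 4 → Fin 4 → Site n L l → ℂ), (∀ α i j x, f α j i x = -f α i j x) →
  ∀ M : ℝ, (∀ α i j x, ‖f α i j x‖ ≤ M) → ∀ β : ℝ, 1 ≤ β →
  ∀ E : ℝ, E = C * vol n L l ^ p * (1 + M) ^ 8 / Real.sqrt β *
    ∫ U, (1 + (β * Sq k q U) ^ 3) * Real.exp (-(β * Sq k q U))
      ∂(Measure.pi fun _ : Link n L l => μ) →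
  |∫ U, (β * Ph k q f U ^ 2 - cc χ k f) * Real.exp (-(β * Sq k q U))
    ∂(Measure.pi fun _ : Link n L l => μ)| ≤ E ∧
  |∫ U, (β ^ 2 * Ph k q f U ^ 4 - 3 * cc χ k f * (β * Ph k q f U ^ 2)) *
    Real.exp (-(β * Sq k q U)) ∂(Measure.pi fun _ : Link n L l => μ)| ≤ E

/-- W4: the second and the fourth moment on the torus. From W3, R6 and `Q12` as in
`Run7.h630.QF.t_R8` (the part `hmom`, `hEE`), and `|cc| ≤ C V^p M²` -/
def S_W4 : Prop := ∀ (N k : ℕ) [NeZero N], Nat.Coprime k N → ∀ χ : Col N → ℂ, IsChi N k χ →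
  ∀ [MeasurableSpace (SU N)] [BorelSpace (SU N)] (μ : Measure (SU N)) [IsProbabilityMeasure μ]
  [μ.IsHaarMeasure], ∃ C : ℝ, ∃ p : ℕ, 0 < C ∧ ∀ (m l R : ℕ) [NeZero m] [NeZero (2 * m)]
  [NeZero l], 2 * R + 2 ≤ 2 * m →
  ∀ f : Col N → Fin 4 → Fin 4 → Site (2 * m) (2 * m) l → ℂ, (∀ α i j x, f α j i x = -f α i j x) →
  ∀ M : ℝ, (∀ α i j x, ‖f α i j x‖ ≤ M) → ∀ β : ℝ, 1 ≤ β →
  ∀ Z : ℝ, Z = Sw N (2 * m) (2 * m) R (fun q => ∫ U, Real.exp (-(β * Sq k q U))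
    ∂(Measure.pi fun _ : Link (2 * m) (2 * m) l => μ)) →
  ∀ E : ℝ, E = C * vol (2 * m) (2 * m) l ^ p * (1 + M) ^ 12 * β ^ (-(1 / 4) : ℝ) * Z →
  |Sw N (2 * m) (2 * m) R (fun q => ∫ U, β * Ph k q f U ^ 2 * Real.exp (-(β * Sq k q U))
    ∂(Measure.pi fun _ : Link (2 * m) (2 * m) l => μ)) - cc χ k f * Z| ≤ E ∧
  |Sw N (2 * m) (2 * m) R (fun q => ∫ U, β ^ 2 * Ph k q f U ^ 4 * Real.exp (-(β * Sq k q U))
    ∂(Measure.pi fun _ : Link (2 * m) (2 * m) l => μ)) - 3 * cc χ k f ^ 2 * Z| ≤ E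

/-- the two-form at the site `y` in the plane `(i, j)` -/
def dl (i j : Fin 4) (y : Site n L l) (a b : Fin 4) (x : Site n L l) : ℂ :=
  if x = y then (if a = i ∧ b = j then 1 else if a = j ∧ b = i then -1 else 0) else 0

/-- the same in the colour `α`, with the coefficient `w` -/
def pf (α : Col N) (w : ℂ) (i j : Fin 4) (y : Site n L l) (α' : Col N) (a b : Fin 4)
    (x : Site n L l) : ℂ := if α' = α then w * dl i j y a b x else 0

/-- the two-point function of the field strength on the lattice -/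
def kr (k : ℕ) (α : Col N) (i j i' j' : Fin 4) (x y : Site n L l) : ℂ :=
  nb k α i (pot k α (dl i' j' y) j) x - nb k α j (pot k α (dl i' j' y) i) x

/-- the polarisation of `cc` -/
def ct [NeZero N] [NeZero n] [NeZero L] [NeZero l] (χ : Col N → ℂ) (k : ℕ)
    (f g : Col N → Fin 4 → Fin 4 → Site n L l → ℂ) : ℝ :=
  cc χ k (fun α i j x => f α i j x + g α i j x) - cc χ k f - cc χ k g

/-- W5a: algebra. Proof: `pf` has `prg (pf α w i j x) a = Re (w * conj (d a)_ij(x))`, `po` is linear,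
`kr k α i j i' j' x y = conj (kr k α i' j' i j y x)` (`Gr` is self-adjoint: `Q5a` and summation by
parts), `kr k (ng α) = conj (kr k α)` (`rh k (ng α) = conj (rh k α)`). So
`ct / 2 = (N / 2) (Re (w conj w' κ) [α = α'] - Re (w w' χ κ') [α' = ng α])`. -/
def S_W5a : Prop := ∀ (N n L l k : ℕ) [NeZero N] [NeZero n] [NeZero L] [NeZero l],
  Nat.Coprime k N → ∀ χ : Col N → ℂ, (∀ α, ‖χ α‖ = 1) → (∀ α, χ (ng α) = χ α) →
  ∀ i j i' j' : Fin 4, i < j → i' < j' → ∀ x y : Site n L l,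
  ∑ α ∈ Cz N, ∑ w ∈ ({1, Complex.I} : Finset ℂ), ∑ α' ∈ Cz N, ∑ w' ∈ ({1, Complex.I} : Finset ℂ),
    ct χ k (pf α w i j x) (pf α' w' i' j' y) ^ 2 =
    4 * N ^ 2 * ∑ α ∈ Cz N, ‖kr k α i j i' j' x y‖ ^ 2

/-- W5b: the local energy in terms of the fields. From `Q3` with `M = Fc` and `Q3b` (colour `0`),
`‖z U - 1‖² = 2 (N - Re z tr U)` -/
def S_W5b : Prop := ∀ N : ℕ, [NeZero N] → ∃ C : ℝ, ∃ p : ℕ, 0 < C ∧ ∀ (n L l k : ℕ) [NeZero n]
  [NeZero L] [NeZero l], Nat.Coprime k N → ∀ (q : ZMod n × ZMod L → ZMod N)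
  (U : Link n L l → SU N) (x : Site n L l) (i j : Fin 4), i < j → ∀ β : ℝ, 1 ≤ β →
  |β * ((N : ℝ) - (zz N k q x i j * trace (plaq U x i j).1).re) -
      β / (2 * N) * ∑ α ∈ Cz N, ‖ph2 k q α U i j x‖ ^ 2| ≤
    C * vol n L l ^ p / Real.sqrt β * (1 + (β * Sq k q U) ^ 2)

/-- W5: the covariances of the local energies on the torus. From W1, W4, W5a, W5b: with
`f = pf α w i j x`, `g = pf α' w' i' j' y` one has `‖ph2 α i j x‖² = ∑ w ∈ {1, I}, Ph (pf α w i j x)²`,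
and `12 f² g² = (f + g)⁴ + (f - g)⁴ - 2 f⁴ - 2 g⁴`, so `E f² g² - E f² E g² = ct² / 2` up to errors;
`(2 N)⁻² * (4 N² / 2) = 1 / 2` -/
def S_W5 : Prop := ∀ (N k : ℕ) [NeZero N], Nat.Coprime k N →
  ∀ [MeasurableSpace (SU N)] [BorelSpace (SU N)] (μ : Measure (SU N)) [IsProbabilityMeasure μ]
  [μ.IsHaarMeasure], ∃ C : ℝ, ∃ p : ℕ, 0 < C ∧ ∀ (m l R : ℕ) [NeZero m] [NeZero (2 * m)]
  [NeZero l], 2 * R + 2 ≤ 2 * m → ∀ β : ℝ, 1 ≤ β →
  ∀ i j i' j' : Fin 4, i < j → i' < j' → ∀ x y : Site (2 * m) (2 * m) l,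
  ∀ X Y : (ZMod (2 * m) × ZMod (2 * m) → ZMod N) → (Link (2 * m) (2 * m) l → SU N) → ℝ,
  (X = fun q U => β * ((N : ℝ) - (zz N k q x i j * trace (plaq U x i j).1).re)) →
  (Y = fun q U => β * ((N : ℝ) - (zz N k q y i' j' * trace (plaq U y i' j').1).re)) →
  ∀ A : ((ZMod (2 * m) × ZMod (2 * m) → ZMod N) → (Link (2 * m) (2 * m) l → SU N) → ℝ) → ℝ,
  (A = fun H => Sw N (2 * m) (2 * m) R (fun q => ∫ U, H q U * Real.exp (-(β * Sq k q U))
    ∂(Measure.pi fun _ : Link (2 * m) (2 * m) l => μ))) →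
  |A (fun q U => X q U * Y q U) * A (fun _ _ => 1) - A X * A Y -
      1 / 2 * ∑ α ∈ Cz N, ‖kr k α i j i' j' x y‖ ^ 2 * A (fun _ _ => 1) ^ 2| ≤
    C * vol (2 * m) (2 * m) l ^ p * β ^ (-(1 / 4) : ℝ) * A (fun _ _ => 1) ^ 2

/-- the projection to the torus -/
def prj (m : ℕ) (x : SiteZ l) : Site (2 * m) (2 * m) l :=
  ((x.1 : ZMod (2 * m)), (x.2.1 : ZMod (2 * m)), x.2.2)

/-- W6: the transfer to the infinite volume, from `S_Q15b`, `S_R9` and W5, with `2 ^ r` of the order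
`l ^ 4 + log β` (the energies are bounded by `2 N β`, so the error in `S_R9` has to beat `β ^ 2`);
compare `Run7.h630.QF.est` and the end of `Fin3` -/
def S_W6 : Prop := ∀ (N k : ℕ) [NeZero N], 2 ≤ N → Nat.Coprime k N →
  ∀ [MeasurableSpace (SU N)] [BorelSpace (SU N)] (μ : Measure (SU N)) [IsProbabilityMeasure μ]
  [μ.IsHaarMeasure], ∃ p : ℕ, ∀ T : ℕ, ∃ l₁ : ℕ, ∀ (l : ℕ) [NeZero l], l₁ ≤ l → ∀ β : ℝ,
  (l : ℝ) ^ p ≤ β → ∀ ν : Measure (LinkZ l → SU N), IsLimit k μ β ν →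
  ∃ m : ℕ, l ^ 2 ≤ m ∧ ∀ [NeZero m] [NeZero (2 * m)], ∀ i j i' j' : Fin 4, i < j → i' < j' →
  ∀ x y : SiteZ l, |x.1| ≤ T * l → |x.2.1| ≤ T * l → |y.1| ≤ T * l → |y.2.1| ≤ T * l →
  |∫ V, energy k β V x i j * energy k β V y i' j' ∂ν -
      (∫ V, energy k β V x i j ∂ν) * ∫ V, energy k β V y i' j' ∂ν -
      1 / 2 * ∑ α ∈ Cz N, ‖kr k α i j i' j' (prj m x) (prj m y)‖ ^ 2| ≤ ((l : ℝ) ^ 9)⁻¹

/-! ### the lattice kernel -/

/-- the mass term of the mode, with the momentum `π a / m` in the direction `1` -/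
def Al (N k l m : ℕ) (a : ℤ) (j : Ix N) : ℝ := (2 - 2 * Real.cos (Real.pi * a / m)) + xm N k l j

/-- the frequency: `exp ω + exp (-ω) = 2 + A` -/
def ol (A : ℝ) : ℝ := 2 * Real.arsinh (Real.sqrt A / 2)

/-- the symbols of the differences, `s = 1` for `exp (-ω t)`, `s = -1` for `exp (-ω (2 m - t))` -/
def fac (N k l m : ℕ) (s : ℝ) (a : ℤ) (j : Ix N) : Fin 4 → ℂ :=
  ![((Real.exp (-(s * ol (Al N k l m a j))) - 1 : ℝ) : ℂ),
    Complex.exp (Complex.I * ((Real.pi * a / m : ℝ) : ℂ)) - 1,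
    Complex.exp (Complex.I * ((mom N k j 2 / l : ℝ) : ℂ)) - 1,
    Complex.exp (Complex.I * ((mom N k j 3 / l : ℝ) : ℂ)) - 1]

/-- the symbols of the adjoint differences -/
def fab (N k l m : ℕ) (s : ℝ) (a : ℤ) (j : Ix N) : Fin 4 → ℂ :=
  ![((Real.exp (s * ol (Al N k l m a j)) - 1 : ℝ) : ℂ),
    Complex.exp (-(Complex.I * ((Real.pi * a / m : ℝ) : ℂ))) - 1,
    Complex.exp (-(Complex.I * ((mom N k j 2 / l : ℝ) : ℂ))) - 1,
    Complex.exp (-(Complex.I * ((mom N k j 3 / l : ℝ) : ℂ))) - 1]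

/-- the windows of the modes in the compact directions -/
def Wi (l : ℕ) : Finset (ℤ × ℤ) :=
  Finset.Ico (-((l / 2 : ℕ) : ℤ)) (-((l / 2 : ℕ) : ℤ) + l) ×ˢ
    Finset.Ico (-((l / 2 : ℕ) : ℤ)) (-((l / 2 : ℕ) : ℤ) + l)

/-- the kernel as a sum over the modes -/
def LS (N k l m : ℕ) (α : Col N) (i j i' j' : Fin 4) (t z y y' : ℤ) : ℂ :=
  ((2 * m * l ^ 2 : ℝ) : ℂ)⁻¹ * ∑ a ∈ Finset.Ico (-(m : ℤ)) m, ∑ c ∈ Wi l,
    Complex.exp (Complex.I * ((Real.pi * a * z / m + (mom N k (α, c) 2 * y +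
      mom N k (α, c) 3 * y') / l : ℝ) : ℂ)) *
    (((Real.exp (-(ol (Al N k l m a (α, c)) * t)) : ℝ) : ℂ) *
        tn (fac N k l m 1 a (α, c)) (fab N k l m 1 a (α, c)) i j i' j' +
      ((Real.exp (-(ol (Al N k l m a (α, c)) * (2 * m - t))) : ℝ) : ℂ) *
        tn (fac N k l m (-1) a (α, c)) (fab N k l m (-1) a (α, c)) i j i' j') /
    ((2 * Real.sinh (ol (Al N k l m a (α, c))) *
      (1 - Real.exp (-(2 * m * ol (Al N k l m a (α, c))))) : ℝ) : ℂ)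

/-- K1: the kernel of the torus. Proof: `Gr (nbs h) = nbs (Gr h)` (`Run7.h771.QC.Gr_nbs`), so `kr` is
`tn` of `nb_i nbs_i' Gr δ_y`; the function `Gr δ_y` is given by the same sum without `tn` (apply `La`:
the waves are eigenfunctions of the twisted differences, `Run7.h4.QF` `wave_shift`; the chain:
`(2 + A) g(t) - g(t+1) - g(t-1) = δ_t0` for `g(t) = (r^t + r^(2m-t)) / ((1/r - r)(1 - r^(2m)))` on
`ZMod (2m)`; completeness of the waves), `Q5a`. The times differ by `1 ≤ t ≤ 2 m - 1`. -/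
def S_K1 : Prop := ∀ (N k m l : ℕ) [NeZero N] [NeZero m] [NeZero (2 * m)] [NeZero l],
  Nat.Coprime k N → ∀ α : Col N, α ≠ (0, 0) → ∀ (i j i' j' : Fin 4), i' ≠ j' →
  ∀ (x y : SiteZ l), 1 ≤ x.1 - y.1 → x.1 - y.1 ≤ 2 * m - 1 →
  kr k α i j i' j' (prj m x) (prj m y) =
    LS N k l m α i j i' j' (x.1 - y.1) (x.2.1 - y.2.1)
      (((x.2.2.1 - 1).val : ℤ) - ((y.2.2.1 - 1).val : ℤ))
      (((x.2.2.2 - 1).val : ℤ) - ((y.2.2.2 - 1).val : ℤ))

/-- K2: the continuum limit of the kernel. Proof: by sequences (compactness of the parameters) and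
dominated convergence for the sum over `ℤ × ℤ` of the integrals of step functions in `p`
(`a = ⌊p m / (π l)⌋`), `l ol(A) → freq`, `ol(A) ≥ c |κ|`, `exp (-ol t) ≤ exp (-c δ (|p| + |q|))` -/
def S_K2 : Prop := ∀ (N k : ℕ) [NeZero N], Nat.Coprime k N → ∀ α : Col N, α ≠ (0, 0) →
  ∀ (i j i' j' : Fin 4) (δ T ε : ℝ), 0 < δ → 0 < ε → ∃ l₁ : ℕ, ∀ (l : ℕ) [NeZero l], l₁ ≤ l →
  ∀ m : ℕ, l ^ 2 ≤ m → ∀ t z y y' : ℤ, δ * l ≤ t → t ≤ T * l → |(z : ℝ)| ≤ T * l →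
  |(y : ℝ)| ≤ l → |(y' : ℝ)| ≤ l →
  ‖(l : ℂ) ^ 4 * LS N k l m α i j i' j' t z y y' -
    twoPoint N k α i j i' j' ![(t : ℝ) / l, (z : ℝ) / l, (y : ℝ) / l, (y' : ℝ) / l]‖ ≤ ε

/-- K3: the limit is bounded. Proof: the bound of the integrand -/
def S_K3 : Prop := ∀ (N k : ℕ) [NeZero N], Nat.Coprime k N → ∀ α : Col N, α ≠ (0, 0) →
  ∀ (i j i' j' : Fin 4) (δ : ℝ), 0 < δ → ∃ B : ℝ, ∀ z : Fin 4 → ℝ, δ ≤ z 0 →
  ‖twoPoint N k α i j i' j' z‖ ≤ B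

end

end Run7.h630.QW
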