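import Pool.Agent.Run7.h624.QW.K3c
import Pool.Agent.Run7.h630.QF.Mom
import Pool.Agent.Run7.h630.QW.Defs2

/-!
# The mass gap of the two-point functions of the local fields
-/

open MeasureTheory Filter Topology

namespace Run7.h630.QW

open Run7.h4.YM Run7.h630.WL Run7.h630.QF Run7.h624.QW

noncomputable section

lemma freq_ge {N k : ℕ} (hk : Nat.Coprime k N) (j : Ix N)
    (hj : (j.1.1 : ℕ) ≠ 0 ∨ (j.1.2 : ℕ) ≠ 0) (p : ℝ) : 2 * Real.pi / N ≤ freq N k j p := by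
  unfold freq
  refine Real.le_sqrt_of_sq_le ?_
  have := mom_ge hk j hj
  nlinarith [sq_nonneg p]

lemma integrand_decay {N k : ℕ} (hk : Nat.Coprime k N) (j : Ix N)
    (hj : (j.1.1 : ℕ) ≠ 0 ∨ (j.1.2 : ℕ) ≠ 0) (a b c d : Fin 4) {δ : ℝ} (hδ : 0 < δ)
    {z : Fin 4 → ℝ} (hz : δ ≤ z 0) (p : ℝ) :
    ‖Complex.exp (Complex.I * ((p * z 1 + mom N k j 2 * z 2 + mom N k j 3 * z 3 : ℝ) : ℂ) -
      ((freq N k j p * z 0 : ℝ) : ℂ)) / ((4 * Real.pi * freq N k j p : ℝ) : ℂ) *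
        tn (sym N k j p) (fun i => -sym N k j p i) a b c d‖ ≤
      Real.exp (-(2 * Real.pi / N * (z 0 - δ))) *
      ((2 / δ * (Real.exp (-(δ / 4 * |mom N k j 2|)) * Real.exp (-(δ / 4 * |mom N k j 3|)))) *
        Real.exp (-(δ / 4 * |p|))) := by
  have h1 := integrand_le (k := k) j a b c d hδ (z := Function.update z 0 δ) (by simp) p
  have e : Complex.exp (Complex.I * ((p * z 1 + mom N k j 2 * z 2 + mom N k j 3 * z 3 : ℝ) : ℂ) -
      ((freq N k j p * z 0 : ℝ) : ℂ)) =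
      ((Real.exp (-(freq N k j p * (z 0 - δ))) : ℝ) : ℂ) *
      Complex.exp (Complex.I * ((p * z 1 + mom N k j 2 * z 2 + mom N k j 3 * z 3 : ℝ) : ℂ) -
        ((freq N k j p * δ : ℝ) : ℂ)) := by
    rw [Complex.ofReal_exp, ← Complex.exp_add]
    congr 1
    push_cast
    ring
  have h2 : (Function.update z 0 δ) 0 = δ := by simp
  have h3 : (Function.update z 0 δ) 1 = z 1 := by simp
  have h4 : (Function.update z 0 δ) 2 = z 2 := by simp
  have h5 : (Function.update z 0 δ) 3 = z 3 := by simp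
  rw [h2, h3, h4, h5] at h1
  rw [e, mul_div_assoc, mul_assoc, norm_mul, Complex.norm_real, Real.norm_eq_abs,
    abs_of_pos (Real.exp_pos _)]
  refine mul_le_mul ?_ h1 (norm_nonneg _) (Real.exp_pos _).le
  refine Real.exp_le_exp.2 (neg_le_neg ?_)
  exact mul_le_mul_of_nonneg_right (freq_ge hk j hj p) (by linarith)

/-- the two-point function decays exponentially, with the rate `2 π / N` -/
theorem K4_core (N k : ℕ) (hk : Nat.Coprime k N) (α : Fin N × Fin N)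
    (hα : (α.1 : ℕ) ≠ 0 ∨ (α.2 : ℕ) ≠ 0) (a b c d : Fin 4) (δ : ℝ) (hδ : 0 < δ) :
    ∃ B : ℝ, 0 ≤ B ∧ ∀ z : Fin 4 → ℝ, δ ≤ z 0 →
      ‖twoPoint N k α a b c d z‖ ≤ B * Real.exp (-(2 * Real.pi / N * z 0)) := by
  have hpi := Real.pi_gt_three
  set u2 : ℝ := k * ((α.2 : ℕ) : ℝ) / N with hu2
  set u3 : ℝ := -(k * ((α.1 : ℕ) : ℝ) / N) with hu3
  have hc : 0 < δ / 4 * (2 * Real.pi) := by positivity
  have s2 := summable_exp_abs hc u2
  have s3 := summable_exp_abs hc u3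
  set I0 : ℝ := ∫ p : ℝ, Real.exp (-(δ / 4 * |p|)) with hI0
  have hI00 : 0 ≤ I0 := integral_nonneg fun p => (Real.exp_pos _).le
  have hs : Summable (fun n : ℤ × ℤ => (2 / δ * (Real.exp (-(δ / 4 * |mom N k (α, n) 2|)) *
      Real.exp (-(δ / 4 * |mom N k (α, n) 3|)))) * I0) := by
    have h1 : Summable (fun n : ℤ × ℤ => Real.exp (-(δ / 4 * (2 * Real.pi) * |(n.1 : ℝ) - u2|)) *
        Real.exp (-(δ / 4 * (2 * Real.pi) * |(n.2 : ℝ) - u3|))) :=
      s2.mul_of_nonneg s3 (fun _ => (Real.exp_pos _).le) (fun _ => (Real.exp_pos _).le)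
    refine ((h1.mul_left (2 / δ)).mul_right I0).congr fun n => ?_
    have h2 : |mom N k (α, n) 2| = 2 * Real.pi * |(n.1 : ℝ) - u2| := by
      show |2 * Real.pi * ((n.1 : ℝ) - k * ((α.2 : ℕ) : ℝ) / N)| = _
      rw [abs_mul, abs_of_pos (by positivity : 0 < 2 * Real.pi)]
    have h3 : |mom N k (α, n) 3| = 2 * Real.pi * |(n.2 : ℝ) - u3| := by
      show |2 * Real.pi * ((n.2 : ℝ) + k * ((α.1 : ℕ) : ℝ) / N)| = _
      rw [abs_mul, abs_of_pos (by positivity : 0 < 2 * Real.pi), hu3, sub_neg_eq_add]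
    rw [h2, h3]
    simp only [mul_assoc]
  refine ⟨Real.exp (2 * Real.pi / N * δ) * ∑' n : ℤ × ℤ,
    (2 / δ * (Real.exp (-(δ / 4 * |mom N k (α, n) 2|)) *
      Real.exp (-(δ / 4 * |mom N k (α, n) 3|)))) * I0,
    mul_nonneg (Real.exp_pos _).le (tsum_nonneg fun n => by positivity), fun z hz => ?_⟩
  have hb : ∀ n : ℤ × ℤ, ‖∫ p : ℝ, Complex.exp (Complex.I * ((p * z 1 + mom N k (α, n) 2 * z 2 +
      mom N k (α, n) 3 * z 3 : ℝ) : ℂ) - ((freq N k (α, n) p * z 0 : ℝ) : ℂ)) /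
      ((4 * Real.pi * freq N k (α, n) p : ℝ) : ℂ) *
        tn (sym N k (α, n) p) (fun i => -sym N k (α, n) p i) a b c d‖ ≤
      Real.exp (-(2 * Real.pi / N * (z 0 - δ))) *
        ((2 / δ * (Real.exp (-(δ / 4 * |mom N k (α, n) 2|)) *
          Real.exp (-(δ / 4 * |mom N k (α, n) 3|)))) * I0) := by
    intro n
    rw [hI0, ← integral_const_mul, ← integral_const_mul]
    exact norm_integral_le_of_norm_le (((int_exp_abs (by positivity)).const_mul _).const_mul _)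
      (Eventually.of_forall fun p => integrand_decay hk (α, n) hα a b c d hδ hz p)
  have h1 := tsum_of_norm_bounded (hs.mul_left
    (Real.exp (-(2 * Real.pi / N * (z 0 - δ))))).hasSum hb
  rw [tsum_mul_left] at h1
  refine h1.trans (le_of_eq ?_)
  have h2 : Real.exp (-(2 * Real.pi / N * (z 0 - δ))) =
      Real.exp (2 * Real.pi / N * δ) * Real.exp (-(2 * Real.pi / N * z 0)) := by
    rw [← Real.exp_add]
    congr 1
    ring
  rw [h2]
  ring

end

end Run7.h630.QW
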