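import Pool.Agent.Run7.h630.QW.Fin2
import Pool.Agent.Run7.h630.QF.Main
import Pool.Agent.Run7.h863.QW.W1
import Pool.Agent.Run7.h863.QW.V5b
import Pool.Agent.Run7.h771.QW.W3
import Pool.Agent.Run7.h370.QW.W4
import Pool.Agent.Run7.h819.QW.V5a
import Pool.Agent.Run7.h882.QW.V5
import Pool.Agent.Run7.h885.QW.K1
import Pool.Agent.Run7.h763.QW.K2
import Pool.Agent.Run7.h624.QW.K3
import Pool.Agent.Run7.h863.QW.V6

/-!
# The local gauge invariant fields: all pieces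
-/

open MeasureTheory Filter Topology

namespace Run7.h630.QW

open Run7.h4.YM Run7.h630.WL Run7.h630.QC Run7.h630.QF

theorem w1 : S_W1 := Pool.Agent.Run7.h863.QW.t_W1
theorem w3 : S_W3 := Run7.h771.QW.t_W3 q4 q5c q6 r1 r3 r4 r5
theorem w4 : S_W4 := Run7.h370.QW.t_W4 w3 q5b r6 q12
theorem v5a : S_V5a := Run7.h819.QW.t_V5a
theorem v5b : S_V5b := Pool.Agent.Run7.h863.QW.t_V5b q3 q3b
theorem v5 : S_V5 := Run7.h882.QW.t_V5 w1 w4 v5a v5b r6 q12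
theorem v6 : S_V6 := Pool.Agent.Run7.h863.QW.t_V6 q15b r9 v5
theorem k1 : S_K1 := Pool.Agent.Run7.h885.QW.t_K1
theorem k2 : S_K2 := Run7.h763.QW.t_K2
theorem k3 : S_K3 := Run7.h624.QW.t_K3

/-- the continuum limit of the local gauge invariant fields -/
theorem main (N k : ℕ) (hN : 2 ≤ N) (hk : Nat.Coprime k N) [MeasurableSpace (SU N)]
    [BorelSpace (SU N)] (μ : Measure (SU N)) [IsProbabilityMeasure μ] [μ.IsHaarMeasure] :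
    (∀ j : Ix N, ((j.1.1 : ℕ) ≠ 0 ∨ (j.1.2 : ℕ) ≠ 0) →
      (2 * Real.pi / N) ^ 2 ≤ mom N k j 2 ^ 2 + mom N k j 3 ^ 2) ∧
    ∃ p : ℕ, (∃ l₀ : ℕ, ∀ (l : ℕ) [NeZero l], l₀ ≤ l → ∀ β : ℝ, (l : ℝ) ^ p ≤ β →
        ∃ ν : Measure (LinkZ l → SU N), IsLimit k μ β ν) ∧
      ∀ δ T B ε : ℝ, 0 < δ → 0 < ε → ∃ l₁ : ℕ, ∀ (l : ℕ) [NeZero l], l₁ ≤ l →
      ∀ β : ℝ, (l : ℝ) ^ p ≤ β → ∀ ν : Measure (LinkZ l → SU N), IsLimit k μ β ν →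
      ∀ u v : Fin 4 → Fin 4 → ℝ, (∀ a b, |u a b| ≤ B) → (∀ a b, |v a b| ≤ B) →
      ∀ x y : SiteZ l, δ * l ≤ x.1 - y.1 →
        |(x.1 : ℝ)| ≤ T * l → |(x.2.1 : ℝ)| ≤ T * l → |(y.1 : ℝ)| ≤ T * l →
        |(y.2.1 : ℝ)| ≤ T * l →
        |(l : ℝ) ^ 8 * (∫ V, localField k β V u x * localField k β V v y ∂ν -
            (∫ V, localField k β V u x ∂ν) * ∫ V, localField k β V v y ∂ν) -
          1 / 2 * ∑ α ∈ (Finset.univ : Finset (Fin N × Fin N)).filter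
            (fun α => (α.1 : ℕ) ≠ 0 ∨ (α.2 : ℕ) ≠ 0), ‖twoPointU N k α u v (sep x y)‖ ^ 2| ≤
          ε := by
  obtain ⟨h1, p1, ⟨l0, h0⟩, -⟩ := Run7.h630.QF.main N k hN hk μ
  obtain ⟨p2, h2⟩ := finU v6 k1 k2 k3 N k hN hk μ
  refine ⟨h1, max p1 p2, ⟨max l0 1, fun l _ hl β hβ => h0 l ((le_max_left _ _).trans hl) β ?_⟩,
    fun δ T B ε hδ hε => ?_⟩
  · have hl1 : (1 : ℝ) ≤ l := by exact_mod_cast (le_max_right _ _).trans hl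
    exact (pow_le_pow_right₀ hl1 (le_max_left _ _)).trans hβ
  · obtain ⟨l1, h1⟩ := h2 δ T B ε hδ hε
    refine ⟨max l1 1, fun l _ hl β hβ => h1 l ((le_max_left _ _).trans hl) β ?_⟩
    have hl1 : (1 : ℝ) ≤ l := by exact_mod_cast (le_max_right _ _).trans hl
    exact (pow_le_pow_right₀ hl1 (le_max_right _ _)).trans hβ

end Run7.h630.QW
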